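import Pool.Agent.H68.ST.Final

set_option autoImplicit false

open MeasureTheory Set Filter
open scoped Manifold ContDiff Topology

namespace Pool.Agent.Results.MP_27f38a_gt.AllRanks

variable {E : Type*} [NormedAddCommGroup E] [NormedSpace ℝ E]

/-- A smooth distribution of constant rank `r` on the manifold `E`: near every point it is spanned
by `r` smooth vector fields that are linearly independent at every point. -/
def IsSmoothDistribution (r : ℕ) (Δ : E → Submodule ℝ E) : Prop :=
  ∀ p : E, ∃ U : Set E, IsOpen U ∧ p ∈ U ∧ ∃ X : Fin r → E → E,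
    (∀ i, ContDiffOn ℝ ∞ (X i) U) ∧
    ∀ x ∈ U, LinearIndependent ℝ (fun i => X i x) ∧
      Submodule.span ℝ (Set.range fun i => X i x) = Δ x

/-- `Δ` has a global frame of `r` real analytic vector fields. -/
def HasAnalyticFrame (r : ℕ) (Δ : E → Submodule ℝ E) : Prop :=
  ∃ X : Fin r → E → E, (∀ i, AnalyticOnNhd ℝ (X i) univ) ∧
    ∀ x, LinearIndependent ℝ (fun i => X i x) ∧
      Submodule.span ℝ (Set.range fun i => X i x) = Δ x

/-- Lebesgue measure on `[0,1]`. -/
noncomputable def mu01 : Measure ℝ := volume.restrict (Icc (0:ℝ) 1)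

/-- The absolutely continuous path on `[0,1]` with starting point `q` and velocity
`u ∈ L²([0,1], E)`. -/
noncomputable def path (q : E) (u : Lp E 2 mu01) (t : ℝ) : E :=
  q + ∫ s in Icc (0:ℝ) t, u s ∂mu01

/-- The space of admissible paths starting at `q`, each path being given by its velocity; the
`H¹` topology is the topology of `L²([0,1], E)`. -/
def admissible (Δ : E → Submodule ℝ E) (q : E) : Set (Lp E 2 mu01) :=
  {u | ∀ᵐ t ∂mu01, u t ∈ Δ (path q u t)}

/-- The path from `q` with velocity `u` is a singular curve: it is admissible, and the differential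
of the endpoint map, which maps `η` in the tangent space of the space of admissible paths (the span
of the tangent cone) to `∫ η`, is not surjective. -/
def IsSingular (Δ : E → Submodule ℝ E) (q : E) (u : Lp E 2 mu01) : Prop :=
  u ∈ admissible Δ q ∧
    ¬ ∀ v : E, ∃ η ∈ Submodule.span ℝ (tangentConeAt ℝ (admissible Δ q) u),
      ∫ s, η s ∂mu01 = v

/-- `p` is joined to `q` by one singular curve. -/
def SingularStep (Δ : E → Submodule ℝ E) (p q : E) : Prop :=
  ∃ u : Lp E 2 mu01, IsSingular Δ p u ∧ path p u 1 = q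

/-- Singular transitivity: any two points are joined by a finite concatenation of singular
curves. -/
def SingularTransitive (Δ : E → Submodule ℝ E) : Prop :=
  ∀ p q : E, Relation.ReflTransGen (SingularStep Δ) p q

/-- For every point `p` and every `v ∈ Δ p` there is a smooth singular curve starting at `p`
with initial velocity `v`. -/
def SingularInEveryDirection (Δ : E → Submodule ℝ E) : Prop :=
  ∀ p : E, ∀ v ∈ Δ p, ∃ γ : ℝ → E, ContDiff ℝ ∞ γ ∧ γ 0 = p ∧ deriv γ 0 = v ∧
    ∃ u : Lp E 2 mu01, IsSingular Δ p u ∧ ∀ t ∈ Icc (0:ℝ) 1, path p u t = γ t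

/-- `Φ` is a symmetry of `Δ`: a diffeomorphism whose differential maps `Δ` onto `Δ`. -/
def IsSymmetry (Δ : E → Submodule ℝ E) (Φ : Equiv.Perm E) : Prop :=
  ContDiff ℝ ∞ Φ ∧ ContDiff ℝ ∞ Φ.symm ∧
    ∀ x, (Δ x).map (fderiv ℝ Φ x : E →ₗ[ℝ] E) = Δ (Φ x)

/-- The symmetries of `Δ` act transitively. -/
def IsHomogeneous (Δ : E → Submodule ℝ E) : Prop :=
  ∀ p q : E, ∃ Φ : Equiv.Perm E, IsSymmetry Δ Φ ∧ Φ p = q

/-- The vector fields obtained from smooth sections of `Δ` by iterated Lie brackets. -/
inductive IteratedBracket (Δ : E → Submodule ℝ E) : (E → E) → Prop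
  | sec (V : E → E) (hV : ContDiff ℝ ∞ V) (h : ∀ p, V p ∈ Δ p) : IteratedBracket Δ V
  | bracket (V W : E → E) (hV : IteratedBracket Δ V) (hW : IteratedBracket Δ W) :
      IteratedBracket Δ (VectorField.lieBracket ℝ V W)

/-- `Δ` is bracket generating: the iterated brackets of its sections span the tangent space at
every point. -/
def BracketGenerating (Δ : E → Submodule ℝ E) : Prop :=
  ∀ p : E, Submodule.span ℝ {v | ∃ V, IteratedBracket Δ V ∧ V p = v} = ⊤

/-- `Δ` has no Cauchy characteristic direction: if `v ∈ Δ p` and the bracket at `p` of any two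
smooth sections `V`, `W` of `Δ` with `V p = v` lies in `Δ p`, then `v = 0`. -/
def HasNoCauchyCharacteristics (Δ : E → Submodule ℝ E) : Prop :=
  ∀ p : E, ∀ v ∈ Δ p,
    (∀ V W : E → E, ContDiff ℝ ∞ V → ContDiff ℝ ∞ W → (∀ x, V x ∈ Δ x) → (∀ x, W x ∈ Δ x) →
      V p = v → VectorField.lieBracket ℝ V W p ∈ Δ p) → v = 0

/-- The symmetry group of `Δ` is a finite-dimensional Lie group: there are a finite-dimensional
smooth Lie group `G` and a group isomorphism `φ` of `G` onto the group of all symmetries of `Δ`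
with continuous orbit maps `g ↦ φ g x`, and moreover `G` is second countable or every
one-parameter group of symmetries that acts smoothly is continuous as a map into `G`. -/
def SymmetryGroupIsLie (Δ : E → Submodule ℝ E) : Prop :=
  ∃ (n : ℕ) (G : Type) (_ : TopologicalSpace G) (_ : ChartedSpace (EuclideanSpace ℝ (Fin n)) G)
    (_ : Group G) (_ : LieGroup (𝓡 n) ∞ G) (φ : G →* Equiv.Perm E),
    Function.Injective φ ∧ Set.range φ = {Φ | IsSymmetry Δ Φ} ∧
    (∀ x : E, Continuous fun g => φ g x) ∧
    (SecondCountableTopology G ∨ ∀ ρ : Multiplicative ℝ →* G,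
      ContDiff ℝ ∞ (fun p : ℝ × E => φ (ρ (Multiplicative.ofAdd p.1)) p.2) →
        Continuous fun s : ℝ => ρ (Multiplicative.ofAdd s))

/-- For every `n` the group `ℝⁿ` acts faithfully and smoothly on `E` by symmetries of `Δ`;
so there are `n` linearly independent commuting complete infinitesimal symmetries. -/
def HasSymmetryActionsOfAllRanks (Δ : E → Submodule ℝ E) : Prop :=
  ∀ n : ℕ, ∃ ρ : Multiplicative (Fin n → ℝ) →* Equiv.Perm E, Function.Injective ρ ∧
    (∀ s, IsSymmetry Δ (ρ s)) ∧
    ContDiff ℝ ∞ (fun p : (Fin n → ℝ) × E => ρ (Multiplicative.ofAdd p.1) p.2)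

private lemma conv {Δ : E → Submodule ℝ E} {V : E → E} (h : Pool.Agent.H68.ST.IteratedBracket Δ V) :
    IteratedBracket Δ V := by
  induction h with
  | sec V hV h => exact .sec V hV h
  | bracket V W _ _ ih1 ih2 => exact .bracket V W ih1 ih2

/-- For every rank `r ≥ 3` and every dimension `n ≥ r + 2`, with the single exception
`(r, n) = (3, 5)`, there is a real analytic, bracket generating, homogeneous distribution of rank
`r` on `ℝⁿ` without Cauchy characteristics which is singular transitive (with a smooth singular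
curve through every point in every direction of `Δ` if `n ≥ r + 4`) and whose symmetry group is
not a finite-dimensional Lie group. -/
theorem result (r n : ℕ) (hr : 3 ≤ r) (hn : r + 2 ≤ n) (h35 : ¬ (r = 3 ∧ n = 5)) :
    ∃ Δ : EuclideanSpace ℝ (Fin n) → Submodule ℝ (EuclideanSpace ℝ (Fin n)),
      IsSmoothDistribution r Δ ∧ HasAnalyticFrame r Δ ∧ BracketGenerating Δ ∧
      HasNoCauchyCharacteristics Δ ∧ IsHomogeneous Δ ∧ SingularTransitive Δ ∧
      (r + 4 ≤ n → SingularInEveryDirection Δ) ∧
      ¬ SymmetryGroupIsLie Δ ∧ HasSymmetryActionsOfAllRanks Δ := by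
  obtain ⟨Δ, ⟨h1, h2, h3, h4, h5, h6, h7, h8⟩, h9⟩ :=
    Pool.Agent.H68.ST.exists_all r n hr hn h35
  refine ⟨Δ, h1, h2, fun p => ?_, h4, h5, h6, h9, h7, h8⟩
  rw [eq_top_iff, ← h3 p]
  apply Submodule.span_mono
  rintro v ⟨V, hV, hv⟩
  exact ⟨V, conv hV, hv⟩

end Pool.Agent.Results.MP_27f38a_gt.AllRanks
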