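import Mathlib

set_option autoImplicit false

open MeasureTheory Set Filter
open scoped Manifold ContDiff Topology Pointwise

namespace Pool.Agent.Results.MP_27f38a_gt.SingularTransitiveNotLie

section defs

variable {E : Type*} [NormedAddCommGroup E] [NormedSpace ℝ E]

/-- A smooth distribution of constant rank `r` on the manifold `E`: near every point it is spanned
by `r` smooth vector fields that are linearly independent at every point. -/
def IsSmoothDistribution (r : ℕ) (Δ : E → Submodule ℝ E) : Prop :=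
  ∀ p : E, ∃ U : Set E, IsOpen U ∧ p ∈ U ∧ ∃ X : Fin r → E → E,
    (∀ i, ContDiffOn ℝ ∞ (X i) U) ∧
    ∀ x ∈ U, LinearIndependent ℝ (fun i => X i x) ∧
      Submodule.span ℝ (Set.range fun i => X i x) = Δ x

/-- Lebesgue measure on `[0,1]`. -/
noncomputable def mu01 : Measure ℝ := volume.restrict (Icc (0:ℝ) 1)

/-- The absolutely continuous path on `[0,1]` with starting point `q` and velocity
`u ∈ L²([0,1], E)`. -/
noncomputable def path (q : E) (u : Lp E 2 mu01) (t : ℝ) : E :=
  q + ∫ s in Icc (0:ℝ) t, u s ∂mu01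

/-- The space of admissible paths starting at `q`, each path being given by its velocity; the
`H¹` topology is the topology of `L²([0,1], E)`. -/
def admissible (Δ : E → Submodule ℝ E) (q : E) : Set (Lp E 2 mu01) :=
  {u | ∀ᵐ t ∂mu01, u t ∈ Δ (path q u t)}

/-- The path from `q` with velocity `u` is a singular curve. -/
def IsSingular (Δ : E → Submodule ℝ E) (q : E) (u : Lp E 2 mu01) : Prop :=
  u ∈ admissible Δ q ∧
    ¬ ∀ v : E, ∃ η ∈ Submodule.span ℝ (tangentConeAt ℝ (admissible Δ q) u),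
      ∫ s, η s ∂mu01 = v

/-- `p` is joined to `q` by one singular curve. -/
def SingularStep (Δ : E → Submodule ℝ E) (p q : E) : Prop :=
  ∃ u : Lp E 2 mu01, IsSingular Δ p u ∧ path p u 1 = q

/-- Singular transitivity. -/
def SingularTransitive (Δ : E → Submodule ℝ E) : Prop :=
  ∀ p q : E, Relation.ReflTransGen (SingularStep Δ) p q

/-- `Φ` is a symmetry of `Δ`. -/
def IsSymmetry (Δ : E → Submodule ℝ E) (Φ : Equiv.Perm E) : Prop :=
  ContDiff ℝ ∞ Φ ∧ ContDiff ℝ ∞ Φ.symm ∧
    ∀ x, (Δ x).map (fderiv ℝ Φ x : E →ₗ[ℝ] E) = Δ (Φ x)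

/-- The symmetry group of `Δ` is a finite-dimensional Lie group: there are a finite-dimensional
smooth Lie group `G` and a group isomorphism `φ` of `G` onto the group of all symmetries of `Δ`
with continuous orbit maps `g ↦ φ g x`, and moreover `G` is second countable or every
one-parameter group of symmetries that acts smoothly is continuous as a map into `G`. -/
def SymmetryGroupIsLie (Δ : E → Submodule ℝ E) : Prop :=
  ∃ (n : ℕ) (G : Type) (_ : TopologicalSpace G) (_ : ChartedSpace (EuclideanSpace ℝ (Fin n)) G)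
    (_ : Group G) (_ : LieGroup (𝓡 n) ∞ G) (φ : G →* Equiv.Perm E),
    Function.Injective φ ∧ Set.range φ = {Φ | IsSymmetry Δ Φ} ∧
    (∀ x : E, Continuous fun g => φ g x) ∧
    (SecondCountableTopology G ∨ ∀ ρ : Multiplicative ℝ →* G,
      ContDiff ℝ ∞ (fun p : ℝ × E => φ (ρ (Multiplicative.ofAdd p.1)) p.2) →
        Continuous fun s : ℝ => ρ (Multiplicative.ofAdd s))

/-- For every `n` the group `ℝⁿ` acts faithfully and smoothly on `E` by symmetries of `Δ`;
so there are `n` linearly independent commuting complete infinitesimal symmetries. -/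
def HasSymmetryActionsOfAllRanks (Δ : E → Submodule ℝ E) : Prop :=
  ∀ n : ℕ, ∃ ρ : Multiplicative (Fin n → ℝ) →* Equiv.Perm E, Function.Injective ρ ∧
    (∀ s, IsSymmetry Δ (ρ s)) ∧
    ContDiff ℝ ∞ (fun p : (Fin n → ℝ) × E => ρ (Multiplicative.ofAdd p.1) p.2)

end defs

/-! ### basic facts on `L²` velocities -/

section basics

variable {E : Type*} [NormedAddCommGroup E] [NormedSpace ℝ E]

instance : IsProbabilityMeasure mu01 := by
  constructor
  simp [mu01]

omit [NormedSpace ℝ E] in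
lemma integrable_Lp (f : Lp E 2 mu01) : Integrable (fun s => f s) mu01 :=
  (Lp.memLp f).integrable (by norm_num)

omit [NormedSpace ℝ E] in
lemma integral_norm_le (f : Lp E 2 mu01) : ∫ s, ‖f s‖ ∂mu01 ≤ ‖f‖ := by
  have h1 : ∫ s, ‖f s‖ ∂mu01 = (eLpNorm (fun s => f s) 1 mu01).toReal := by
    rw [eLpNorm_one_eq_lintegral_enorm]
    rw [integral_norm_eq_lintegral_enorm (integrable_Lp f).aestronglyMeasurable]
  rw [h1, Lp.norm_def]
  apply ENNReal.toReal_mono (Lp.eLpNorm_ne_top f)
  exact eLpNorm_le_eLpNorm_of_exponent_le (by norm_num) (Lp.aestronglyMeasurable f)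

lemma norm_setIntegral_le (f : Lp E 2 mu01) (t : ℝ) : ‖∫ s in Icc (0:ℝ) t, f s ∂mu01‖ ≤ ‖f‖ := by
  refine (norm_integral_le_integral_norm _).trans ?_
  refine le_trans ?_ (integral_norm_le f)
  exact setIntegral_le_integral (integrable_Lp f).norm (Eventually.of_forall fun _ => norm_nonneg _)

/-- integration of velocities, as a continuous linear map. -/
noncomputable def intCLM : Lp E 2 mu01 →L[ℝ] E :=
  LinearMap.mkContinuous
    { toFun := fun f => ∫ s, f s ∂mu01
      map_add' := fun f g => by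
        rw [← integral_add (integrable_Lp f) (integrable_Lp g)]
        exact integral_congr_ae (Lp.coeFn_add f g)
      map_smul' := fun c f => by
        simp only [RingHom.id_apply]
        rw [← integral_smul]
        exact integral_congr_ae (Lp.coeFn_smul c f) } 1
    (fun f => by
      simp only [LinearMap.coe_mk, AddHom.coe_mk, one_mul]
      exact (norm_integral_le_integral_norm _).trans (integral_norm_le f))

lemma intCLM_apply (f : Lp E 2 mu01) : intCLM f = ∫ s, f s ∂mu01 := rfl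

end basics

/-- the manifold `ℝ⁷`. -/
abbrev M7 : Type := EuclideanSpace ℝ (Fin 7)

lemma proj_integral (f : Lp M7 2 mu01) (t : ℝ) (j : Fin 7) :
    (∫ s in Icc (0:ℝ) t, f s ∂mu01) j = ∫ s in Icc (0:ℝ) t, (f s) j ∂mu01 := by
  have := (EuclideanSpace.proj (𝕜 := ℝ) j : M7 →L[ℝ] ℝ).integral_comp_comm
    ((integrable_Lp f).restrict (s := Icc (0:ℝ) t))
  simpa using this.symm

/-- key estimate. -/
lemma key_est (Δ : M7 → Submodule ℝ M7) (q : M7) (u : Lp M7 2 mu01) (i j k : Fin 7)
    (hk : ∀ p, ∀ v ∈ Δ p, v k = p j * v i)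
    (hi0 : ∀ᵐ t ∂mu01, (u t) i = 0) (hj0 : ∀ᵐ t ∂mu01, (u t) j = 0)
    (hk0 : ∀ᵐ t ∂mu01, (u t) k = 0)
    (d : Lp M7 2 mu01) (hd : u + d ∈ admissible Δ q) :
    |(intCLM d) k - q j * (intCLM d) i| ≤ ‖d‖ * ‖d‖ := by
  have hd' : ∀ᵐ t ∂mu01, (u + d) t ∈ Δ (path q (u + d) t) := hd
  -- pointwise bound
  have hpt : ∀ᵐ t ∂mu01, |(d t) k - q j * (d t) i| ≤ ‖d‖ * ‖d t‖ := by
    filter_upwards [hd', hi0, hk0, Lp.coeFn_add u d] with t h1 h2 h4 h5
    have h6 := hk _ _ h1
    rw [h5] at h6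
    simp only [Pi.add_apply, PiLp.add_apply, h2, h4, zero_add] at h6
    have h7 : (path q (u + d) t) j = q j + ∫ s in Icc (0:ℝ) t, (d s) j ∂mu01 := by
      unfold path
      rw [PiLp.add_apply, proj_integral]
      congr 1
      apply setIntegral_congr_ae measurableSet_Icc
      filter_upwards [hj0, Lp.coeFn_add u d] with s h8 h9 _
      rw [h9]
      simp [h8]
    rw [h7] at h6
    have h8 : (d t) k - q j * (d t) i = (∫ s in Icc (0:ℝ) t, (d s) j ∂mu01) * (d t) i := by
      rw [h6]; ring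
    rw [h8, abs_mul]
    apply mul_le_mul
    · rw [← proj_integral, ← Real.norm_eq_abs]
      exact (PiLp.norm_apply_le _ j).trans (norm_setIntegral_le d t)
    · rw [← Real.norm_eq_abs]
      exact PiLp.norm_apply_le _ i
    · exact abs_nonneg _
    · exact norm_nonneg _
  let ℓ : M7 →L[ℝ] ℝ := (EuclideanSpace.proj (𝕜 := ℝ) k : M7 →L[ℝ] ℝ) -
    (q j) • (EuclideanSpace.proj (𝕜 := ℝ) i : M7 →L[ℝ] ℝ)
  have hℓ : ∀ v : M7, ℓ v = v k - q j * v i := fun v => by simp [ℓ]
  rw [← hℓ, intCLM_apply, ← ℓ.integral_comp_comm (integrable_Lp d)]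
  calc |∫ s, ℓ (d s) ∂mu01| ≤ ∫ s, |ℓ (d s)| ∂mu01 := by
        rw [← Real.norm_eq_abs]
        refine (norm_integral_le_integral_norm _).trans (le_of_eq ?_)
        rfl
    _ ≤ ∫ s, ‖d‖ * ‖d s‖ ∂mu01 := by
        apply integral_mono_ae
        · exact (ℓ.integrable_comp (integrable_Lp d)).abs
        · exact (integrable_Lp d).norm.const_mul _
        · filter_upwards [hpt] with t ht
          rw [hℓ]; exact ht
    _ = ‖d‖ * ∫ s, ‖d s‖ ∂mu01 := integral_const_mul _ _
    _ ≤ ‖d‖ * ‖d‖ := by gcongr; exact integral_norm_le d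

/-- a path along which a contact triple is constant is singular. -/
lemma singular_of_const (Δ : M7 → Submodule ℝ M7) (q : M7) (u : Lp M7 2 mu01) (i j k : Fin 7)
    (hik : i ≠ k) (hk : ∀ p, ∀ v ∈ Δ p, v k = p j * v i)
    (hi0 : ∀ᵐ t ∂mu01, (u t) i = 0) (hj0 : ∀ᵐ t ∂mu01, (u t) j = 0)
    (hk0 : ∀ᵐ t ∂mu01, (u t) k = 0) (hu : u ∈ admissible Δ q) : IsSingular Δ q u := by
  refine ⟨hu, fun hall => ?_⟩
  let ℓ : M7 →L[ℝ] ℝ := (EuclideanSpace.proj (𝕜 := ℝ) k : M7 →L[ℝ] ℝ) -
    (q j) • (EuclideanSpace.proj (𝕜 := ℝ) i : M7 →L[ℝ] ℝ)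
  have hℓ : ∀ v : M7, ℓ v = v k - q j * v i := fun v => by simp [ℓ]
  let Λ : Lp M7 2 mu01 →L[ℝ] ℝ := ℓ.comp intCLM
  have hcone : ∀ η ∈ tangentConeAt ℝ (admissible Δ q) u, Λ η = 0 := by
    intro η hη
    obtain ⟨α, l, hl, c, d, hd0, hds, hcd⟩ := exists_fun_of_mem_tangentConeAt hη
    have h1 : Tendsto (fun n => Λ (c n • d n)) l (𝓝 (Λ η)) := (Λ.continuous.tendsto η).comp hcd
    have h2 : Tendsto (fun n => ‖c n • d n‖ * ‖d n‖) l (𝓝 (‖η‖ * 0)) := by
      apply Tendsto.mul hcd.norm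
      simpa using hd0.norm
    rw [mul_zero] at h2
    have h3 : Tendsto (fun n => Λ (c n • d n)) l (𝓝 0) := by
      apply squeeze_zero_norm' _ h2
      filter_upwards [hds] with n hn
      have h4 := key_est Δ q u i j k hk hi0 hj0 hk0 (d n) hn
      have h5 : Λ (c n • d n) = c n * ((intCLM (d n)) k - q j * (intCLM (d n)) i) := by
        rw [map_smul, smul_eq_mul]
        congr 1
      rw [h5, norm_mul, norm_smul, mul_assoc]
      exact mul_le_mul_of_nonneg_left h4 (norm_nonneg _)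
    exact tendsto_nhds_unique h1 h3
  have hspan : ∀ η ∈ Submodule.span ℝ (tangentConeAt ℝ (admissible Δ q) u), Λ η = 0 := by
    intro η hη
    have : Submodule.span ℝ (tangentConeAt ℝ (admissible Δ q) u) ≤ LinearMap.ker (Λ : Lp M7 2 mu01 →ₗ[ℝ] ℝ) := by
      rw [Submodule.span_le]
      intro x hx
      exact hcone x hx
    exact this hη
  obtain ⟨η, hη, hv⟩ := hall (EuclideanSpace.single k 1)
  have h1 := hspan η hη
  have h2 : Λ η = ℓ (∫ s, η s ∂mu01) := rfl
  rw [h2, hv, hℓ] at h1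
  simp [hik] at h1

/-! ### the example -/

/-- points and vectors of `ℝ⁷`. -/
abbrev pt (a b c d e f g : ℝ) : M7 := !₂[a, b, c, d, e, f, g]

lemma pt_add (a b c d e f g a' b' c' d' e' f' g' : ℝ) :
    pt a b c d e f g + pt a' b' c' d' e' f' g' = pt (a + a') (b + b') (c + c') (d + d') (e + e')
      (f + f') (g + g') := by
  ext i; fin_cases i <;> simp

lemma pt_smul (t a b c d e f g : ℝ) :
    t • pt a b c d e f g = pt (t * a) (t * b) (t * c) (t * d) (t * e) (t * f) (t * g) := by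
  ext i; fin_cases i <;> simp

/-- The distribution `dz₁ = y₁ dx₁`, `dz₂ = y₂ dx₂`, `dw = x₂ dx₁` on `ℝ⁷` with coordinates
`(x₁, y₁, z₁, x₂, y₂, z₂, w)`: it is spanned by `∂x₁ + y₁ ∂z₁ + x₂ ∂w`, `∂y₁`,
`∂x₂ + y₂ ∂z₂`, `∂y₂`. -/
def D0 (p : M7) : Submodule ℝ M7 :=
  Submodule.span ℝ {!₂[1, 0, p 1, 0, 0, 0, p 3], !₂[0, 1, 0, 0, 0, 0, 0],
    !₂[0, 0, 0, 1, 0, p 4, 0], !₂[0, 0, 0, 0, 1, 0, 0]}

/-- the frame. -/
noncomputable def frame (i : Fin 4) (p : M7) : M7 :=
  match i with
  | 0 => pt 1 0 (p 1) 0 0 0 (p 3)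
  | 1 => pt 0 1 0 0 0 0 0
  | 2 => pt 0 0 0 1 0 (p 4) 0
  | 3 => pt 0 0 0 0 1 0 0

lemma D0_eq (p : M7) : D0 p = Submodule.span ℝ (range fun i => frame i p) := by
  unfold D0
  congr 1
  ext v
  simp only [mem_insert_iff, mem_singleton_iff, mem_range]
  constructor
  · rintro (h | h | h | h)
    · exact ⟨0, h.symm⟩
    · exact ⟨1, h.symm⟩
    · exact ⟨2, h.symm⟩
    · exact ⟨3, h.symm⟩
  · rintro ⟨i, rfl⟩
    fin_cases i
    · exact Or.inl rfl
    · exact Or.inr (Or.inl rfl)
    · exact Or.inr (Or.inr (Or.inl rfl))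
    · exact Or.inr (Or.inr (Or.inr rfl))

lemma mem_D0 (p v : M7) : v ∈ D0 p ↔ v 2 = p 1 * v 0 ∧ v 5 = p 4 * v 3 ∧ v 6 = p 3 * v 0 := by
  rw [D0_eq]
  constructor
  · intro hv
    induction hv using Submodule.span_induction with
    | mem x hx =>
      obtain ⟨i, rfl⟩ := hx
      fin_cases i <;> simp [frame]
    | zero => simp
    | add a b _ _ ha hb =>
      obtain ⟨h1, h2, h3⟩ := ha
      obtain ⟨h4, h5, h6⟩ := hb
      refine ⟨?_, ?_, ?_⟩ <;> simp only [PiLp.add_apply] <;> linarith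
    | smul c a _ ha =>
      obtain ⟨h1, h2, h3⟩ := ha
      refine ⟨?_, ?_, ?_⟩ <;> simp only [PiLp.smul_apply, smul_eq_mul, h1, h2, h3] <;> ring
  · intro hv
    have : v = v 0 • frame 0 p + v 1 • frame 1 p + v 3 • frame 2 p + v 4 • frame 3 p := by
      ext j
      fin_cases j <;> simp [frame, hv.1, hv.2.1, hv.2.2, mul_comm]
    rw [this]
    have hm : ∀ i, frame i p ∈ Submodule.span ℝ (range fun i => frame i p) :=
      fun i => Submodule.subset_span ⟨i, rfl⟩
    exact Submodule.add_mem _ (Submodule.add_mem _ (Submodule.add_mem _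
      (Submodule.smul_mem _ _ (hm 0)) (Submodule.smul_mem _ _ (hm 1)))
      (Submodule.smul_mem _ _ (hm 2))) (Submodule.smul_mem _ _ (hm 3))

/-- straight paths. -/
lemma path_const (q v : M7) (t : ℝ) (ht : t ∈ Icc (0:ℝ) 1) :
    path q (Lp.const 2 mu01 v) t = q + t • v := by
  unfold path
  congr 1
  have h1 : ∫ s in Icc (0:ℝ) t, (Lp.const 2 mu01 v : Lp M7 2 mu01) s ∂mu01
      = ∫ s in Icc (0:ℝ) t, v ∂mu01 := by
    apply setIntegral_congr_ae measurableSet_Icc
    filter_upwards [Lp.coeFn_const 2 mu01 v] with s hs _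
    rw [hs]; rfl
  rw [h1, setIntegral_const]
  congr 1
  rw [mu01, measureReal_restrict_apply measurableSet_Icc]
  have : Icc (0:ℝ) t ∩ Icc 0 1 = Icc 0 t := by
    apply inter_eq_left.mpr
    exact Icc_subset_Icc_right ht.2
  rw [this]
  simp [measureReal_def, ht.1]

lemma step (q v : M7) (hv : ∀ t ∈ Icc (0:ℝ) 1, v ∈ D0 (q + t • v))
    (h : (v 3 = 0 ∧ v 4 = 0 ∧ v 5 = 0) ∨ (v 0 = 0 ∧ v 1 = 0 ∧ v 2 = 0)) :
    SingularStep D0 q (q + v) := by
  have hadm : Lp.const 2 mu01 v ∈ admissible D0 q := by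
    have h1 : ∀ᵐ t ∂mu01, t ∈ Icc (0:ℝ) 1 := ae_restrict_mem measurableSet_Icc
    filter_upwards [h1, Lp.coeFn_const 2 mu01 v] with t ht hc
    rw [hc, path_const q v t ht]
    exact hv t ht
  have hc : ∀ i, v i = 0 → ∀ᵐ t ∂mu01, ((Lp.const 2 mu01 v : Lp M7 2 mu01) t) i = 0 := by
    intro i hi
    filter_upwards [Lp.coeFn_const 2 mu01 v] with t ht
    rw [ht]; exact hi
  refine ⟨Lp.const 2 mu01 v, ?_, ?_⟩
  · rcases h with ⟨h3, h4, h5⟩ | ⟨h0, h1, h2⟩
    · exact singular_of_const D0 q _ 3 4 5 (by decide) (fun p v hv => ((mem_D0 p v).mp hv).2.1)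
        (hc 3 h3) (hc 4 h4) (hc 5 h5) hadm
    · exact singular_of_const D0 q _ 0 1 2 (by decide) (fun p v hv => ((mem_D0 p v).mp hv).1)
        (hc 0 h0) (hc 1 h1) (hc 2 h2) hadm
  · rw [path_const q v 1 (by simp), one_smul]

/-- reachability by singular curves. -/
abbrev Reach := Relation.ReflTransGen (SingularStep D0)

lemma mem_D0_pt (a b c d e f g a' b' c' d' e' f' g' : ℝ) :
    pt a' b' c' d' e' f' g' ∈ D0 (pt a b c d e f g) ↔ c' = b * a' ∧ f' = e * d' ∧ g' = d * a' := by
  rw [mem_D0]; simp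

lemma mv0 (a b c d e f g a' : ℝ) :
    Reach (pt a b c d e f g) (pt a' b (c + b * (a' - a)) d e f (g + d * (a' - a))) := by
  apply Relation.ReflTransGen.single
  have h := step (pt a b c d e f g) (pt (a' - a) 0 (b * (a' - a)) 0 0 0 (d * (a' - a))) ?_ (Or.inl (by simp))
  · rw [pt_add] at h
    simpa using h
  · intro t _
    rw [pt_smul, pt_add, mem_D0_pt]
    simp

lemma mv1 (a b c d e f g b' : ℝ) : Reach (pt a b c d e f g) (pt a b' c d e f g) := by
  apply Relation.ReflTransGen.single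
  have h := step (pt a b c d e f g) (pt 0 (b' - b) 0 0 0 0 0) ?_ (Or.inl (by simp))
  · rw [pt_add] at h
    simpa using h
  · intro t _
    rw [pt_smul, pt_add, mem_D0_pt]
    simp

lemma mv3 (a b c d e f g d' : ℝ) :
    Reach (pt a b c d e f g) (pt a b c d' e (f + e * (d' - d)) g) := by
  apply Relation.ReflTransGen.single
  have h := step (pt a b c d e f g) (pt 0 0 0 (d' - d) 0 (e * (d' - d)) 0) ?_ (Or.inr (by simp))
  · rw [pt_add] at h
    simpa using h
  · intro t _
    rw [pt_smul, pt_add, mem_D0_pt]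
    simp

lemma mv4 (a b c d e f g e' : ℝ) : Reach (pt a b c d e f g) (pt a b c d e' f g) := by
  apply Relation.ReflTransGen.single
  have h := step (pt a b c d e f g) (pt 0 0 0 0 (e' - e) 0 0) ?_ (Or.inr (by simp))
  · rw [pt_add] at h
    simpa using h
  · intro t _
    rw [pt_smul, pt_add, mem_D0_pt]
    simp

lemma connA (a b c d e f g a' b' c' : ℝ) :
    Reach (pt a b c d e f g) (pt a' b' c' d e f (g + d * (a' - a))) := by
  have h1 := mv1 a b c d e f g 0
  have h2 := mv0 a 0 c d e f g (a' + 1)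
  have h3 := mv1 (a' + 1) 0 (c + 0 * (a' + 1 - a)) d e f (g + d * (a' + 1 - a)) (c - c')
  have h4 := mv0 (a' + 1) (c - c') (c + 0 * (a' + 1 - a)) d e f (g + d * (a' + 1 - a)) a'
  have h5 := mv1 a' (c - c') (c + 0 * (a' + 1 - a) + (c - c') * (a' - (a' + 1))) d e f
    (g + d * (a' + 1 - a) + d * (a' - (a' + 1))) b'
  have h6 := (((h1.trans h2).trans h3).trans h4).trans h5
  have e1 : c + 0 * (a' + 1 - a) + (c - c') * (a' - (a' + 1)) = c' := by ring
  have e2 : g + d * (a' + 1 - a) + d * (a' - (a' + 1)) = g + d * (a' - a) := by ring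
  rw [e1, e2] at h6
  exact h6

lemma connB (a b c d e f g d' e' f' : ℝ) :
    Reach (pt a b c d e f g) (pt a b c d' e' f' g) := by
  have h1 := mv4 a b c d e f g 0
  have h2 := mv3 a b c d 0 f g (d' + 1)
  have h3 := mv4 a b c (d' + 1) 0 (f + 0 * (d' + 1 - d)) g (f - f')
  have h4 := mv3 a b c (d' + 1) (f - f') (f + 0 * (d' + 1 - d)) g d'
  have h5 := mv4 a b c d' (f - f') (f + 0 * (d' + 1 - d) + (f - f') * (d' - (d' + 1))) g e'
  have h6 := (((h1.trans h2).trans h3).trans h4).trans h5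
  have e1 : f + 0 * (d' + 1 - d) + (f - f') * (d' - (d' + 1)) = f' := by ring
  rw [e1] at h6
  exact h6

lemma exists_pt (p : M7) : ∃ a b c d e f g, p = pt a b c d e f g :=
  ⟨p 0, p 1, p 2, p 3, p 4, p 5, p 6, by ext i; fin_cases i <;> simp⟩

theorem singularTransitive_D0 : SingularTransitive D0 := by
  intro p q
  obtain ⟨a, b, c, d, e, f, g, rfl⟩ := exists_pt p
  obtain ⟨a', b', c', d', e', f', g', rfl⟩ := exists_pt q
  have h1 := connB a b c d e f g (g' - g) 0 0
  have h2 := connA a b c (g' - g) 0 0 g (a + 1) 0 0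
  have h3 := connB (a + 1) 0 0 (g' - g) 0 0 (g + (g' - g) * (a + 1 - a)) 0 0 0
  have h4 := connA (a + 1) 0 0 0 0 0 (g + (g' - g) * (a + 1 - a)) a' b' c'
  have h5 := connB a' b' c' 0 0 0 (g + (g' - g) * (a + 1 - a) + 0 * (a' - (a + 1))) d' e' f'
  have h6 := (((h1.trans h2).trans h3).trans h4).trans h5
  have e1 : g + (g' - g) * (a + 1 - a) + 0 * (a' - (a + 1)) = g' := by ring
  rw [e1] at h6
  exact h6

theorem smooth_D0 : IsSmoothDistribution 4 D0 := by
  intro p
  refine ⟨univ, isOpen_univ, mem_univ p, frame, ?_, ?_⟩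
  · intro i
    apply ContDiff.contDiffOn
    rw [contDiff_piLp]
    intro j
    fin_cases i <;> fin_cases j <;> simp [frame] <;> fun_prop
  · intro x _
    constructor
    · rw [Fintype.linearIndependent_iff]
      intro g hg
      rw [Fin.sum_univ_four] at hg
      have h0 := congrArg (fun v : M7 => v 0) hg
      have h1 := congrArg (fun v : M7 => v 1) hg
      have h3 := congrArg (fun v : M7 => v 3) hg
      have h4 := congrArg (fun v : M7 => v 4) hg
      simp [frame] at h0 h1 h3 h4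
      intro i
      fin_cases i <;> simp [h0, h1, h3, h4]
    · exact (D0_eq x).symm

/-! ### symmetries -/

/-- coordinate vector of `y₁`. -/
noncomputable abbrev e1 : M7 := pt 0 1 0 0 0 0 0
/-- coordinate vector of `z₁`. -/
noncomputable abbrev e2 : M7 := pt 0 0 1 0 0 0 0

/-- vertical shift by the 1-jet of `f`. -/
noncomputable def shift (f : ℝ → ℝ) : Equiv.Perm M7 where
  toFun p := p + (deriv f (p 0) • e1 + f (p 0) • e2)
  invFun p := p - (deriv f (p 0) • e1 + f (p 0) • e2)
  left_inv p := by simp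
  right_inv p := by simp

lemma shift_apply (f : ℝ → ℝ) (p : M7) :
    shift f p = p + (deriv f (p 0) • e1 + f (p 0) • e2) := rfl

lemma shift_symm_apply (f : ℝ → ℝ) (p : M7) :
    (shift f).symm p = p - (deriv f (p 0) • e1 + f (p 0) • e2) := rfl

lemma shift_zero_coord (f : ℝ → ℝ) (p : M7) : (shift f p) 0 = p 0 := by
  simp [shift_apply]

lemma shift_add (f g : ℝ → ℝ) (hf : Differentiable ℝ f) (hg : Differentiable ℝ g) :
    shift (fun x => f x + g x) = shift f * shift g := by
  ext p i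
  rw [Equiv.Perm.mul_apply, shift_apply f, shift_zero_coord, shift_apply, shift_apply]
  have : deriv (fun x => f x + g x) (p 0) = deriv f (p 0) + deriv g (p 0) :=
    deriv_fun_add (hf _) (hg _)
  rw [this]
  fin_cases i <;> simp <;> ring

lemma contDiff_coord (i : Fin 7) : ContDiff ℝ ∞ (fun p : M7 => p i) :=
  (EuclideanSpace.proj (𝕜 := ℝ) i : M7 →L[ℝ] ℝ).contDiff

lemma contDiff_deriv {f : ℝ → ℝ} (hf : ContDiff ℝ ∞ f) : ContDiff ℝ ∞ (deriv f) :=
  (contDiff_infty_iff_deriv.mp hf).2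

lemma contDiff_jet {f : ℝ → ℝ} (hf : ContDiff ℝ ∞ f) :
    ContDiff ℝ ∞ (fun p : M7 => deriv f (p 0) • e1 + f (p 0) • e2) :=
  (((contDiff_deriv hf).comp (contDiff_coord 0)).smul contDiff_const).add
    ((hf.comp (contDiff_coord 0)).smul contDiff_const)

/-- differential of `shift f`. -/
noncomputable def dshift (f : ℝ → ℝ) (p : M7) : M7 →L[ℝ] M7 :=
  ContinuousLinearMap.id ℝ M7 +
    ((deriv (deriv f) (p 0) • (EuclideanSpace.proj (𝕜 := ℝ) (0 : Fin 7) : M7 →L[ℝ] ℝ)).smulRight e1
    + (deriv f (p 0) • (EuclideanSpace.proj (𝕜 := ℝ) (0 : Fin 7) : M7 →L[ℝ] ℝ)).smulRight e2)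

lemma dshift_apply (f : ℝ → ℝ) (p v : M7) : dshift f p v =
    v + ((deriv (deriv f) (p 0) * v 0) • e1 + (deriv f (p 0) * v 0) • e2) := by
  simp [dshift]

lemma hasFDerivAt_shift {f : ℝ → ℝ} (hf : ContDiff ℝ ∞ f) (p : M7) :
    HasFDerivAt (shift f) (dshift f p) p := by
  have hd : HasDerivAt f (deriv f (p 0)) (p 0) :=
    (hf.differentiable (by norm_num)).differentiableAt.hasDerivAt
  have hdd : HasDerivAt (deriv f) (deriv (deriv f) (p 0)) (p 0) :=
    ((contDiff_deriv hf).differentiable (by norm_num)).differentiableAt.hasDerivAt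
  have h3 : HasFDerivAt (fun p : M7 => p 0) (EuclideanSpace.proj (𝕜 := ℝ) (0 : Fin 7) : M7 →L[ℝ] ℝ) p :=
    (EuclideanSpace.proj (𝕜 := ℝ) (0 : Fin 7) : M7 →L[ℝ] ℝ).hasFDerivAt
  have h4 : HasFDerivAt (fun p : M7 => f (p 0))
      (deriv f (p 0) • (EuclideanSpace.proj (𝕜 := ℝ) (0 : Fin 7) : M7 →L[ℝ] ℝ)) p :=
    hd.comp_hasFDerivAt p h3
  have h5 : HasFDerivAt (fun p : M7 => deriv f (p 0))
      (deriv (deriv f) (p 0) • (EuclideanSpace.proj (𝕜 := ℝ) (0 : Fin 7) : M7 →L[ℝ] ℝ)) p :=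
    HasDerivAt.comp_hasFDerivAt (h₂ := deriv f) p hdd h3
  exact (hasFDerivAt_id p).add ((h5.smul_const e1).add (h4.smul_const e2))

lemma isSymmetry_shift {f : ℝ → ℝ} (hf : ContDiff ℝ ∞ f) : IsSymmetry D0 (shift f) := by
  refine ⟨contDiff_id.add (contDiff_jet hf), contDiff_id.sub (contDiff_jet hf), ?_⟩
  intro p
  rw [(hasFDerivAt_shift hf p).fderiv]
  apply le_antisymm
  · rintro _ ⟨v, hv, rfl⟩
    rw [SetLike.mem_coe, mem_D0] at hv
    obtain ⟨h1, h2, h3⟩ := hv
    rw [mem_D0]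
    simp only [ContinuousLinearMap.coe_coe, dshift_apply, shift_apply]
    simp [h1, h2, h3]
    ring
  · intro v hv
    rw [mem_D0] at hv
    obtain ⟨h1, h2, h3⟩ := hv
    simp [shift_apply] at h1 h2 h3
    refine ⟨v - ((deriv (deriv f) (p 0) * v 0) • e1 + (deriv f (p 0) * v 0) • e2), ?_, ?_⟩
    · rw [SetLike.mem_coe, mem_D0]
      simp [h1, h2, h3]
      ring
    · rw [ContinuousLinearMap.coe_coe, dshift_apply]
      simp

/-- diagonal argument: countably many compact sets never contain all the shifts. -/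
lemma diag {G : Type*} [TopologicalSpace G] (act : G → Equiv.Perm M7)
    (hact : ∀ x, Continuous fun g => act g x) (K : ℕ → Set G) (hK : ∀ n, IsCompact (K n)) :
    ∃ f : ℝ → ℝ, ContDiff ℝ ∞ f ∧ ∀ n, ∀ g ∈ K n, act g ≠ shift f := by
  have h1 : ∀ n : ℕ, ∃ C : ℝ, ∀ g ∈ K n, (act g (pt n 0 0 0 0 0 0)) 2 ≤ C := by
    intro n
    have hc : Continuous fun g => (act g (pt n 0 0 0 0 0 0)) 2 :=
      (EuclideanSpace.proj (𝕜 := ℝ) (2 : Fin 7) : M7 →L[ℝ] ℝ).continuous.comp (hact _)
    obtain ⟨C, hC⟩ := (hK n).bddAbove_image hc.continuousOn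
    exact ⟨C, fun g hg => hC ⟨g, hg, rfl⟩⟩
  choose C hC using h1
  let t : ℝ → Set ℝ := fun x => {y | ∀ k : ℕ, (k : ℝ) ≤ |x| + 1 → C k < y}
  have ht : ∀ x, Convex ℝ (t x) := by
    intro x
    have : t x = ⋂ k : ℕ, ⋂ (_ : (k : ℝ) ≤ |x| + 1), Ioi (C k) := by
      ext y; simp [t]
    rw [this]
    exact convex_iInter fun k => convex_iInter fun _ => convex_Ioi _
  have Hloc : ∀ x : ℝ, ∃ c : ℝ, ∀ᶠ y in 𝓝 x, c ∈ t y := by
    intro x
    obtain ⟨N, hN⟩ := exists_nat_gt (|x| + 2)
    refine ⟨(∑ k ∈ Finset.range (N + 1), |C k|) + 1, ?_⟩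
    have h2 : ∀ᶠ y in 𝓝 x, |y - x| < 1 := by
      have := Metric.ball_mem_nhds x (one_pos)
      filter_upwards [this] with y hy
      rwa [Metric.mem_ball, Real.dist_eq] at hy
    filter_upwards [h2] with y hy k hk
    have h3 : |y| ≤ |x| + 1 := by
      have := abs_sub_abs_le_abs_sub y x
      linarith
    have h4 : k ∈ Finset.range (N + 1) := by
      rw [Finset.mem_range]
      have : (k : ℝ) < N := by linarith
      have : k < N := by exact_mod_cast this
      omega
    have h5 := Finset.single_le_sum (f := fun k => |C k|) (fun _ _ => abs_nonneg _) h4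
    have h6 := le_abs_self (C k)
    linarith
  obtain ⟨F, hF⟩ := exists_contMDiffMap_forall_mem_convex_of_local_const (n := (⊤ : ℕ∞)) 𝓘(ℝ, ℝ) ht Hloc
  refine ⟨F, contMDiff_iff_contDiff.mp F.contMDiff, ?_⟩
  intro n g hg heq
  have h2 := hC n g hg
  rw [heq, shift_apply] at h2
  have h3 := hF n n (by have := le_abs_self (n : ℝ); linarith)
  simp at h2
  linarith

lemma shift_mul_hom {f : ℝ → ℝ} (hf : ContDiff ℝ ∞ f) (s t : ℝ) :
    shift (fun x => (s + t) * f x) = shift (fun x => s * f x) * shift (fun x => t * f x) := by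
  have hd : Differentiable ℝ f := hf.differentiable (by norm_num)
  rw [← shift_add _ _ (hd.const_mul s) (hd.const_mul t)]
  congr 1
  funext x
  ring

theorem not_lie : ¬ SymmetryGroupIsLie D0 := by
  rintro ⟨n, G, tG, cG, gG, lG, φ, hinj, hrange, hcont, hor⟩
  have hex : ∀ f : ℝ → ℝ, ContDiff ℝ ∞ f → ∃ g, φ g = shift f := by
    intro f hf
    have : shift f ∈ Set.range φ := by rw [hrange]; exact isSymmetry_shift hf
    exact this
  have hlc : LocallyCompactSpace G := ChartedSpace.locallyCompactSpace (EuclideanSpace ℝ (Fin n)) G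
  have hK : ∃ K : ℕ → Set G, (∀ m, IsCompact (K m)) ∧
      ∀ f : ℝ → ℝ, ContDiff ℝ ∞ f → ∀ g, φ g = shift f → ∃ m, g ∈ K m := by
    rcases hor with h2 | h2
    · refine ⟨compactCovering G, isCompact_compactCovering G, fun f _ g _ => exists_mem_compactCovering g⟩
    · have hgr : IsTopologicalGroup G := topologicalGroup_of_lieGroup (𝓡 n) ∞
      obtain ⟨K, hKc, hK1⟩ := exists_compact_mem_nhds (1 : G)
      let P : ℕ → Set G := fun m => Nat.rec {1} (fun _ S => S * K) m
      have hP : ∀ m, IsCompact (P m) := by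
        intro m
        induction m with
        | zero => exact isCompact_singleton
        | succ m ih => exact ih.mul hKc
      have hpow : ∀ (a : G), a ∈ K → ∀ m, a ^ m ∈ P m := by
        intro a ha m
        induction m with
        | zero => simp [P]
        | succ m ih => rw [pow_succ]; exact Set.mul_mem_mul ih ha
      refine ⟨P, hP, ?_⟩
      intro f hf g hg
      choose ψ hψ using fun s : ℝ => hex (fun x => s * f x) (contDiff_const.mul hf)
      let ρ : Multiplicative ℝ →* G :=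
        { toFun := fun s => ψ (Multiplicative.toAdd s)
          map_one' := by
            apply hinj
            have e0 : Multiplicative.toAdd (1 : Multiplicative ℝ) = 0 := rfl
            rw [e0, hψ, map_one]
            ext p i
            have : deriv (fun x => (0:ℝ) * f x) (p 0) = 0 := by simp
            rw [shift_apply, this]
            simp
          map_mul' := by
            intro s t
            apply hinj
            have e0 : Multiplicative.toAdd (s * t) = Multiplicative.toAdd s + Multiplicative.toAdd t := rfl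
            rw [e0, map_mul φ, hψ, hψ, hψ]
            exact shift_mul_hom hf _ _ }
      have hρ : ∀ s : ℝ, φ (ρ (Multiplicative.ofAdd s)) = shift (fun x => s * f x) := fun s => hψ s
      have hsm : ContDiff ℝ ∞ (fun p : ℝ × M7 => φ (ρ (Multiplicative.ofAdd p.1)) p.2) := by
        have e : (fun p : ℝ × M7 => φ (ρ (Multiplicative.ofAdd p.1)) p.2)
            = fun p : ℝ × M7 => p.2 + ((p.1 * deriv f (p.2 0)) • e1 + (p.1 * f (p.2 0)) • e2) := by
          funext p
          rw [hρ, shift_apply]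
          have : deriv (fun x => p.1 * f x) (p.2 0) = p.1 * deriv f (p.2 0) :=
            deriv_const_mul _ (hf.differentiable (by norm_num)).differentiableAt
          rw [this]
        rw [e]
        have hc0 : ContDiff ℝ ∞ (fun p : ℝ × M7 => p.2 0) := (contDiff_coord 0).comp contDiff_snd
        exact contDiff_snd.add (((contDiff_fst.mul ((contDiff_deriv hf).comp hc0)).smul
          contDiff_const).add ((contDiff_fst.mul (hf.comp hc0)).smul contDiff_const))
      have hρc := h2 ρ hsm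
      have h0 : ρ (Multiplicative.ofAdd 0) = 1 := by
        rw [ofAdd_zero, map_one]
      have hlim : Tendsto (fun m : ℕ => ρ (Multiplicative.ofAdd (1 / ((m : ℝ) + 1)))) atTop (𝓝 1) := by
        have := (hρc.tendsto 0).comp (tendsto_one_div_add_atTop_nhds_zero_nat (𝕜 := ℝ))
        rw [h0] at this
        exact this
      obtain ⟨m, hm⟩ := (hlim.eventually hK1).exists
      refine ⟨m + 1, ?_⟩
      have h3 : g = (ρ (Multiplicative.ofAdd (1 / ((m : ℝ) + 1)))) ^ (m + 1) := by
        apply hinj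
        rw [← map_pow, ← ofAdd_nsmul, hρ, hg]
        congr 1
        funext x
        have : ((m + 1 : ℕ) • (1 / ((m : ℝ) + 1))) = 1 := by
          rw [nsmul_eq_mul]; push_cast; field_simp
        rw [this, one_mul]
      rw [h3]
      exact hpow _ hm (m + 1)
  obtain ⟨K, hKc, hKm⟩ := hK
  obtain ⟨f, hf, hne⟩ := diag φ hcont K hKc
  obtain ⟨g, hg⟩ := hex f hf
  obtain ⟨m, hm⟩ := hKm f hf g hg
  exact hne m g hm hg

/-- polynomial with coefficients `s`. -/
noncomputable def polyFun {n : ℕ} (s : Fin n → ℝ) (x : ℝ) : ℝ := ∑ i, s i * x ^ (i : ℕ)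

lemma contDiff_polyFun {n : ℕ} (s : Fin n → ℝ) : ContDiff ℝ ∞ (polyFun s) := by
  unfold polyFun
  fun_prop

lemma deriv_polyFun {n : ℕ} (s : Fin n → ℝ) (x : ℝ) :
    deriv (polyFun s) x = ∑ i, s i * (((i : ℕ) : ℝ) * x ^ ((i : ℕ) - 1)) := by
  unfold polyFun
  rw [deriv_fun_sum (fun i _ => by fun_prop)]
  apply Finset.sum_congr rfl
  intro i _
  rw [deriv_const_mul _ (by fun_prop)]
  simp

lemma polyFun_add {n : ℕ} (s t : Fin n → ℝ) :
    polyFun (s + t) = fun x => polyFun s x + polyFun t x := by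
  funext x
  simp [polyFun, add_mul, Finset.sum_add_distrib]

lemma polyFun_inj {n : ℕ} {s t : Fin n → ℝ} (h : polyFun s = polyFun t) : s = t := by
  have key : ∀ s : Fin n → ℝ, ∀ x : ℝ,
      (∑ i, Polynomial.C (s i) * Polynomial.X ^ (i : ℕ)).eval x = polyFun s x := by
    intro s x
    rw [Polynomial.eval_finsetSum]
    simp [polyFun]
  have hp : (∑ i, Polynomial.C (s i) * Polynomial.X ^ (i : ℕ))
      = (∑ i, Polynomial.C (t i) * Polynomial.X ^ (i : ℕ)) := by
    apply Polynomial.funext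
    intro x
    rw [key, key, h]
  funext i
  have hc : ∀ s : Fin n → ℝ, (∑ j, Polynomial.C (s j) * Polynomial.X ^ (j : ℕ)).coeff (i : ℕ) = s i := by
    intro s
    rw [Polynomial.finsetSum_coeff]
    simp only [Polynomial.coeff_C_mul, Polynomial.coeff_X_pow]
    rw [Finset.sum_eq_single i]
    · simp
    · intro j _ hj
      have : (i : ℕ) ≠ j := fun h => hj (Fin.ext h.symm)
      simp [this]
    · intro h; exact absurd (Finset.mem_univ _) h
  rw [← hc s, hp, hc t]

theorem large_symmetry : HasSymmetryActionsOfAllRanks D0 := by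
  intro n
  refine ⟨{ toFun := fun s => shift (polyFun (Multiplicative.toAdd s)), map_one' := ?_,
            map_mul' := ?_ }, ?_, ?_, ?_⟩
  · have e0 : Multiplicative.toAdd (1 : Multiplicative (Fin n → ℝ)) = 0 := rfl
    rw [e0]
    ext p i
    rw [shift_apply, deriv_polyFun]
    simp [polyFun]
  · intro s t
    have e0 : Multiplicative.toAdd (s * t) = Multiplicative.toAdd s + Multiplicative.toAdd t := rfl
    rw [e0, polyFun_add]
    exact shift_add _ _ ((contDiff_polyFun _).differentiable (by norm_num))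
      ((contDiff_polyFun _).differentiable (by norm_num))
  · intro s t hst
    have h1 : shift (polyFun (Multiplicative.toAdd s)) = shift (polyFun (Multiplicative.toAdd t)) := hst
    have h2 : polyFun (Multiplicative.toAdd s) = polyFun (Multiplicative.toAdd t) := by
      funext x
      have h3 := congrArg (fun Φ : Equiv.Perm M7 => (Φ (pt x 0 0 0 0 0 0)) 2) h1
      simp [shift_apply] at h3
      exact h3
    exact polyFun_inj h2
  · intro s
    exact isSymmetry_shift (contDiff_polyFun _)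
  · change ContDiff ℝ ∞ (fun p : (Fin n → ℝ) × M7 => shift (polyFun p.1) p.2)
    simp only [shift_apply, deriv_polyFun]
    unfold polyFun
    have hc0 : ContDiff ℝ ∞ (fun p : (Fin n → ℝ) × M7 => p.2 0) := (contDiff_coord 0).comp contDiff_snd
    have hs : ∀ i : Fin n, ContDiff ℝ ∞ (fun p : (Fin n → ℝ) × M7 => p.1 i) := fun i => by fun_prop
    have ha : ContDiff ℝ ∞ (fun p : (Fin n → ℝ) × M7 =>
        ∑ i, p.1 i * (((i : ℕ) : ℝ) * p.2 0 ^ ((i : ℕ) - 1))) :=
      ContDiff.sum fun i _ => (hs i).mul (contDiff_const.mul (hc0.pow _))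
    have hb : ContDiff ℝ ∞ (fun p : (Fin n → ℝ) × M7 => ∑ i, p.1 i * p.2 0 ^ (i : ℕ)) :=
      ContDiff.sum fun i _ => (hs i).mul (hc0.pow _)
    exact contDiff_snd.add ((ha.smul contDiff_const).add (hb.smul contDiff_const))

/-- The smooth rank-four distribution `D0` on `ℝ⁷` is singular transitive, and its symmetry group
is not a finite-dimensional Lie group. -/
theorem result : IsSmoothDistribution 4 D0 ∧ SingularTransitive D0 ∧ ¬ SymmetryGroupIsLie D0 ∧
    HasSymmetryActionsOfAllRanks D0 :=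
  ⟨smooth_D0, singularTransitive_D0, not_lie, large_symmetry⟩

end Pool.Agent.Results.MP_27f38a_gt.SingularTransitiveNotLie
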